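import Pool.Agent.X281.SS.Main

/-!
# The isomorphism problem for self-similar groups is undecidable

`Automaton m n` is a finite invertible automaton with `m` states over the alphabet `Fin n`,
`Automaton.group` is the group generated by its states (acting on the words over the alphabet), and
`Automaton.code` is the list of its tables.  There is no algorithm which decides from the tables of
two automata whether the groups are isomorphic, even when the second automaton is a suitable fixed
one and both alphabets have 32 letters.

For a word `w` in the generators of a finitely presented group `Q` with undecidable word problem,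
the automaton generates a subgroup `Γ(w)` of `E × E × C₂`, where `E` is the semidirect product of
`ℤ²` with a free group of rank two acting faithfully.  If `w = 1` in `Q` then `Γ(w) = Γ(1)` has an
element of order two, and otherwise `Γ(w)` has no element of order two.
-/

set_option autoImplicit false

namespace Pool.Agent.Results.MP_56d946_al.IsomorphismUndecidable

open Pool.Agent.X281.SS

/-- The isomorphism problem for self-similar groups is undecidable: (1) already for a suitable
fixed second automaton and alphabets with 32 letters, (2) as a problem on two automata, and
(3) the set of pairs of automata with isomorphic groups is not recursive. -/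
theorem result :
    (∃ (k : ℕ) (B : Automaton k 32), 0 < k ∧
      ¬ ∃ f : List (List (ℕ × ℕ)) → Bool, Computable f ∧
        ∀ (m : ℕ) (A : Automaton m 32), 0 < m →
          (f A.code = true ↔ Nonempty (A.group ≃* B.group))) ∧
    (¬ ∃ f : List (List (ℕ × ℕ)) × List (List (ℕ × ℕ)) → Bool, Computable f ∧
        ∀ (m n m' n' : ℕ) (A : Automaton m n) (B : Automaton m' n'),
          0 < m → 2 ≤ n → 0 < m' → 2 ≤ n' →
            (f (A.code, B.code) = true ↔ Nonempty (A.group ≃* B.group))) ∧
    ¬ ComputablePred fun c : List (List (ℕ × ℕ)) × List (List (ℕ × ℕ)) =>
        ∃ (m n m' n' : ℕ) (A : Automaton m n) (B : Automaton m' n'),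
          0 < m ∧ 2 ≤ n ∧ 0 < m' ∧ 2 ≤ n' ∧ A.code = c.1 ∧ B.code = c.2 ∧
            Nonempty (A.group ≃* B.group) :=
  undecidable

end Pool.Agent.Results.MP_56d946_al.IsomorphismUndecidable
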